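import Pool.Agent.Helper20.Mono.GoalsG

/-! Packet G3a: the signed count of the dual cones at a wall. -/

set_option autoImplicit false
set_option linter.unusedSectionVars false
set_option linter.unusedVariables false

namespace Mono

open Finset

namespace SideD

variable {n : ℕ}

lemma span_iff {ε : Finset (Fin n → ℤ)} {x : Fin n → ℝ} :
    x ∈ Submodule.span ℝ (toR '' (ε : Set (Fin n → ℤ))) ↔
      ∃ c : (Fin n → ℤ) → ℝ, x = ∑ b ∈ ε, c b • toR b := by
  constructor
  · intro h
    obtain ⟨c, hc⟩ := (Submodule.mem_span_image_finset_iff_exists_fun' (R := ℝ) (s := ε)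
      (v := toR)).1 h
    exact ⟨c, hc.symm⟩
  · rintro ⟨c, rfl⟩
    exact Submodule.sum_mem _ fun b hb => Submodule.smul_mem _ _ (Submodule.subset_span ⟨b, hb, rfl⟩)

lemma toR_zsmul (k : ℤ) (x : Fin n → ℤ) : toR (k • x) = (k : ℝ) • toR x := by
  funext i; simp

lemma sat_span {B : Set (Fin n → ℤ)} {x : Fin n → ℤ} (hx : x ∈ sat B) :
    toR x ∈ Submodule.span ℝ (toR '' B) := by
  obtain ⟨k, hk, h⟩ := hx
  have key : ∀ y ∈ AddSubgroup.closure B, toR y ∈ Submodule.span ℝ (toR '' B) := by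
    intro y hy
    induction hy using AddSubgroup.closure_induction with
    | mem y hy => exact Submodule.subset_span ⟨y, hy, rfl⟩
    | zero => rw [toR_zero]; exact Submodule.zero_mem _
    | add a b _ _ ha hb => rw [toR_add]; exact Submodule.add_mem _ ha hb
    | neg a _ ha =>
      have : toR (-a) = - toR a := by funext i; simp
      rw [this]; exact Submodule.neg_mem _ ha
  have h1 := key _ h
  rw [toR_zsmul] at h1
  have h2 := Submodule.smul_mem _ ((k : ℝ)⁻¹) h1
  rwa [smul_smul, inv_mul_cancel₀ (by exact_mod_cast hk), one_smul] at h2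

lemma dot_cast (a v : Fin n → ℤ) : toR a ⬝ᵥ toR v = ((a ⬝ᵥ v : ℤ) : ℝ) := by
  simp [dotProduct]

lemma toR_sub (u v : Fin n → ℤ) : toR (u - v) = toR u - toR v := by
  funext i; simp

variable {A : Finset (Fin n → ℤ)}

lemma na_set_finite (a : Fin n → ℤ) : {z : ℤ | ∃ v ∈ A, z = a ⬝ᵥ v}.Finite := by
  refine (A.finite_toSet.image (fun v => a ⬝ᵥ v)).subset ?_
  rintro z ⟨v, hv, rfl⟩
  exact ⟨v, hv, rfl⟩

lemma NA_le {v : Fin n → ℤ} (hv : v ∈ A) (a : Fin n → ℤ) : NA A a ≤ a ⬝ᵥ v :=
  csInf_le (na_set_finite a).bddBelow ⟨v, hv, rfl⟩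

/-- a linear combination dotted with a vector -/
lemma dot_sum (ε : Finset (Fin n → ℤ)) (c : (Fin n → ℤ) → ℝ) (z : Fin n → ℝ) :
    (∑ b ∈ ε, c b • toR b) ⬝ᵥ z = ∑ b ∈ ε, c b * (toR b ⬝ᵥ z) := by
  rw [sum_dotProduct]
  exact Finset.sum_congr rfl fun b _ => by rw [smul_dotProduct, smul_eq_mul]

/-- independent orthogonal families have total size at most `n` -/
lemma orth_card {ι κ : Type*} [Fintype ι] [Fintype κ] (f : ι → Fin n → ℝ) (g : κ → Fin n → ℝ)
    (hf : LinearIndependent ℝ f) (hg : LinearIndependent ℝ g) (ho : ∀ i j, f i ⬝ᵥ g j = 0) :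
    Fintype.card ι + Fintype.card κ ≤ n := by
  have h : LinearIndependent ℝ (Sum.elim f g) := by
    rw [Fintype.linearIndependent_iff]
    intro c hc
    rw [Fintype.sum_sum_type] at hc
    simp only [Sum.elim_inl, Sum.elim_inr] at hc
    set X := ∑ i, c (Sum.inl i) • f i with hX
    set Y := ∑ j, c (Sum.inr j) • g j with hY
    have h1 : X ⬝ᵥ Y = 0 := by
      rw [hX, hY, sum_dotProduct]
      refine Finset.sum_eq_zero fun i _ => ?_
      rw [dotProduct_sum]
      refine Finset.sum_eq_zero fun j _ => ?_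
      rw [smul_dotProduct, dotProduct_smul, ho i j]
      simp
    have h2 : Y = -X := by
      rw [eq_neg_iff_add_eq_zero, add_comm]; exact hc
    have h3 : X = 0 := by
      rw [h2, dotProduct_neg, neg_eq_zero] at h1
      exact dotProduct_self_eq_zero.1 h1
    have h4 : Y = 0 := by rw [h2, h3, neg_zero]
    rintro (i | j)
    · exact Fintype.linearIndependent_iff.1 hf (fun i => c (Sum.inl i)) h3 i
    · exact Fintype.linearIndependent_iff.1 hg (fun j => c (Sum.inr j)) h4 j
  have := h.fintype_card_le_finrank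
  simpa using this

end SideD

open SideD

open Classical in
theorem sideDual (_hS : SpanT) (hC : StarCoverT) : SideDual := by
  intro n Φ T Z hN hAd τ ε hτ hε hcard hdual u₀ hu₀ κ hκ hκs m hm
  set A := Φ.vert \ Z with hA
  have hτA : ∀ u ∈ τ \ Z, u ∈ A := by
    intro u hu
    rw [mem_sdiff] at hu ⊢
    exact ⟨hτ.subset_vert _ hu.1, hu.2⟩
  have hu0A : u₀ ∈ A := hτA u₀ hu₀
  -- orthogonality
  have horth : ∀ a, (∀ v ∈ τ \ Z, a ⬝ᵥ v = NA A a) → (∀ v ∈ τ ∩ Z, a ⬝ᵥ v = 0) →
      ∀ e ∈ edges Z τ, a ⬝ᵥ e = 0 := by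
    rintro a h1 h2 e (⟨u, hu, v, hv, rfl⟩ | ⟨h3, h4⟩)
    · rw [dotProduct_sub, h1 u hu, h1 v hv, sub_self]
    · exact h2 e (mem_inter.2 ⟨h3, h4⟩)
  have hdec : ∀ a, (∀ e ∈ edges Z τ, a ⬝ᵥ e = 0) → ∃ c : (Fin n → ℤ) → ℝ,
      toR a = (m a : ℝ) • toR κ + ∑ b ∈ ε, c b • toR b := by
    intro a ha
    obtain ⟨c, hc⟩ := span_iff.1 (sat_span (hm a ha))
    refine ⟨c, ?_⟩
    rw [← hc, toR_sub, toR_zsmul]
    abel
  have hεu0 : ∀ b ∈ ε, b ⬝ᵥ u₀ = NA A b := fun b hb => (hdual b hb).1 u₀ hu₀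
  set S := T.vert.filter (fun a => a ∉ ε ∧ T.IsFace (insert a ε) ∧
      InDual A Z τ (insert a ε)) with hSdef
  have hSmem : ∀ a, a ∈ S ↔ a ∈ T.vert ∧ a ∉ ε ∧ T.IsFace (insert a ε) ∧
      InDual A Z τ (insert a ε) := fun a => by rw [hSdef, mem_filter]
  -- decomposition of elements of `S`
  have hSdec : ∀ a ∈ S, ∃ c : (Fin n → ℤ) → ℝ,
      toR a = (m a : ℝ) • toR κ + ∑ b ∈ ε, c b • toR b := by
    intro a ha
    obtain ⟨h1, h2, h3, h4⟩ := (hSmem a).1 ha
    have h5 := h4 a (mem_insert_self _ _)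
    exact hdec a (horth a h5.1 h5.2)
  have hm0 : ∀ a ∈ S, m a ≠ 0 := by
    intro a ha h0
    obtain ⟨h1, h2, h3, h4⟩ := (hSmem a).1 ha
    obtain ⟨c, hc⟩ := hSdec a ha
    rw [h0] at hc
    have hind := h3.indep
    have h5 := hind.sum_eq_zero (c := fun b => if b = a then 1 else - c b) (by
      rw [sum_insert h2]
      simp only [if_true]
      rw [hc]
      have : ∑ x ∈ ε, (if x = a then (1 : ℝ) else -c x) • toR x = - ∑ x ∈ ε, c x • toR x := by
        rw [← sum_neg_distrib]
        refine sum_congr rfl fun x hx => ?_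
        have hxa : x ≠ a := by rintro rfl; exact h2 hx
        rw [if_neg hxa, neg_smul]
      rw [this]
      simp) a (mem_insert_self _ _)
    simp at h5
  have hsgn : ∀ a ∈ S, (m a).sign = 1 ∨ (m a).sign = -1 := by
    intro a ha
    rcases lt_trichotomy (m a) 0 with h | h | h
    · right; exact Int.sign_eq_neg_one_of_neg h
    · exact absurd h (hm0 a ha)
    · left; exact Int.sign_eq_one_of_pos h
  -- (1)
  have hL2 : ∀ a ∈ S, Adm A u₀ κ ε (m a).sign := by
    intro a ha
    obtain ⟨h1, h2, h3, h4⟩ := (hSmem a).1 ha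
    obtain ⟨c, hc⟩ := hSdec a ha
    have hau0 : a ⬝ᵥ u₀ = NA A a := (h4 a (mem_insert_self _ _)).1 u₀ hu₀
    have hpos : ∀ z : ℤ, 0 ≤ (m a : ℝ) * (z : ℝ) → 0 ≤ (m a).sign * z := by
      intro z hz
      have hz' : 0 ≤ m a * z := by exact_mod_cast hz
      rcases hsgn a ha with h | h
      · have : 0 < m a := Int.sign_eq_one_iff_pos.1 h
        rw [h, one_mul]
        exact nonneg_of_mul_nonneg_right hz' this
      · have : m a < 0 := Int.sign_eq_neg_one_iff_neg.1 h
        rw [h]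
        nlinarith
    refine ⟨fun v hv hvε => hpos _ ?_, fun i hi => hpos _ ?_⟩
    · have e1 : toR a ⬝ᵥ toR (v - u₀) = (m a : ℝ) * (toR κ ⬝ᵥ toR (v - u₀)) := by
        rw [hc, add_dotProduct, smul_dotProduct, dot_sum]
        rw [Finset.sum_eq_zero, add_zero, smul_eq_mul]
        intro b hb
        rw [dot_cast, dotProduct_sub, hvε b hb, hεu0 b hb]
        simp
      rw [dot_cast, dot_cast] at e1
      rw [← e1]
      have : 0 ≤ a ⬝ᵥ (v - u₀) := by
        rw [dotProduct_sub, hau0]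
        have := NA_le hv a
        omega
      exact_mod_cast this
    · have e1 : (a i : ℝ) = (m a : ℝ) * (κ i : ℝ) := by
        have := congrFun hc i
        simp only [toR_apply, Pi.add_apply, Pi.smul_apply, Finset.sum_apply, smul_eq_mul] at this
        rw [this, Finset.sum_eq_zero, add_zero]
        intro b hb
        rw [hi b hb]; simp
      rw [← e1]
      exact_mod_cast T.vert_nonneg a h1 i
  -- (3)
  have hL4 : ∀ a ∈ S, ∀ a' ∈ S, (m a).sign = (m a').sign → a = a' := by
    intro a ha a' ha' hs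
    obtain ⟨-, h2, ⟨F, hF, hFs⟩, -⟩ := (hSmem a).1 ha
    obtain ⟨-, h2', ⟨F', hF', hFs'⟩, -⟩ := (hSmem a').1 ha'
    obtain ⟨c, hc⟩ := hSdec a ha
    obtain ⟨c', hc'⟩ := hSdec a' ha'
    by_contra hne
    set μ : ℝ := |(m a : ℝ)| with hμ
    set μ' : ℝ := |(m a' : ℝ)| with hμ'
    have hμ0 : 0 < μ := abs_pos.2 (by exact_mod_cast hm0 a ha)
    have hμ0' : 0 < μ' := abs_pos.2 (by exact_mod_cast hm0 a' ha')
    have hmm : μ' * (m a : ℝ) = μ * (m a' : ℝ) := by
      rcases hsgn a ha with h | h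
      · have h3 : (0 : ℝ) < m a := by exact_mod_cast Int.sign_eq_one_iff_pos.1 h
        have h4 : (0 : ℝ) < m a' := by
          exact_mod_cast Int.sign_eq_one_iff_pos.1 (hs ▸ h)
        rw [hμ, hμ', abs_of_pos h3, abs_of_pos h4]; ring
      · have h3 : (m a : ℝ) < 0 := by exact_mod_cast Int.sign_eq_neg_one_iff_neg.1 h
        have h4 : (m a' : ℝ) < 0 := by
          exact_mod_cast Int.sign_eq_neg_one_iff_neg.1 (hs ▸ h)
        rw [hμ, hμ', abs_of_neg h3, abs_of_neg h4]; ring
    set K : ℝ := ∑ b ∈ ε, (|μ' * c b| + |μ * c' b|) with hK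
    have hKb : ∀ b ∈ ε, |μ' * c b| + |μ * c' b| ≤ K := fun b hb =>
      Finset.single_le_sum (f := fun b => |μ' * c b| + |μ * c' b|)
        (fun _ _ => by positivity) hb
    -- the common point
    set x : Fin n → ℝ := μ' • toR a + ∑ b ∈ ε, (K - μ' * c b) • toR b with hx
    have hx' : x = μ • toR a' + ∑ b ∈ ε, (K - μ * c' b) • toR b := by
      rw [hx]
      simp only [sub_smul, Finset.sum_sub_distrib, mul_smul, ← Finset.smul_sum]
      rw [hc, hc']
      simp only [smul_add, smul_smul, hmm]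
      abel
    have hexp : ∀ (F : Finset (Fin n → ℤ)) (a : Fin n → ℤ) (r : ℝ) (d : (Fin n → ℤ) → ℝ),
        Indep F → insert a ε ⊆ F → a ∉ ε →
        x = r • toR a + ∑ b ∈ ε, d b • toR b →
        ∀ u ∈ F, crd F x u = if u = a then r else if u ∈ ε then d u else 0 := by
      intro F a r d hind hsub hae hxe u hu
      refine crd_eq hind (c := fun u => if u = a then r else if u ∈ ε then d u else 0) ?_ hu
      rw [hxe]
      have hsum : ∑ u ∈ F, (if u = a then r else if u ∈ ε then d u else 0) • toR u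
          = ∑ u ∈ insert a ε, (if u = a then r else if u ∈ ε then d u else 0) • toR u := by
        symm
        refine Finset.sum_subset hsub fun u _ hu => ?_
        rw [mem_insert, not_or] at hu
        rw [if_neg hu.1, if_neg hu.2, zero_smul]
      rw [hsum, sum_insert hae]
      simp only [if_true]
      congr 1
      refine sum_congr rfl fun b hb => ?_
      have hba : b ≠ a := by rintro rfl; exact hae hb
      rw [if_neg hba, if_pos hb]
    have hI := T.mx_indep F hF
    have hI' := T.mx_indep F' hF'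
    have hcr := hexp F a μ' (fun b => K - μ' * c b) hI hFs h2 hx
    have hcr' := hexp F' a' μ (fun b => K - μ * c' b) hI' hFs' h2' hx'
    have hnn : ∀ u, 0 ≤ crd F x u := by
      intro u
      by_cases hu : u ∈ F
      · rw [hcr u hu]
        split_ifs with h3 h4
        · exact hμ0'.le
        · have := hKb u h4
          have h5 := le_abs_self (μ' * c u)
          have h6 := abs_nonneg (μ * c' u)
          linarith
        · exact le_rfl
      · rw [crd_of_notMem F _ hu]
    have hnn' : ∀ u, 0 ≤ crd F' x u := by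
      intro u
      by_cases hu : u ∈ F'
      · rw [hcr' u hu]
        split_ifs with h3 h4
        · exact hμ0.le
        · have := hKb u h4
          have h5 := le_abs_self (μ * c' u)
          have h6 := abs_nonneg (μ' * c u)
          linarith
        · exact le_rfl
      · rw [crd_of_notMem F' _ hu]
    have haF : a ∈ F := hFs (mem_insert_self _ _)
    have haF' : a ∈ F' := by
      by_contra h3
      have h4 := T.inter F hF F' hF' x hnn hnn' a h3
      rw [hcr a haF, if_pos rfl] at h4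
      exact hμ0'.ne' h4
    have hcr2 := hexp F' a μ' (fun b => K - μ' * c b) hI'
      (insert_subset haF' ((subset_insert _ _).trans hFs')) h2 hx
    have h5 := hcr' a haF'
    rw [hcr2 a haF', if_pos rfl, if_neg hne, if_neg h2] at h5
    exact hμ0'.ne' h5
  -- (2)
  have hL3 : ∀ s : ℤ, (s = 1 ∨ s = -1) → Adm A u₀ κ ε s → ∃ a ∈ S, (m a).sign = s := by
    intro s hs hAdm
    have hs0 : (s : ℝ) ≠ 0 := by rcases hs with rfl | rfl <;> norm_num
    set y : Fin n → ℝ := (s : ℝ) • toR κ with hy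
    obtain ⟨δ, hδ, hεδ, hδpos⟩ := hC n T univ ε hε (fun u _ i hi => absurd (mem_univ i) hi) y
      (fun i hi => absurd (mem_univ i) hi) (fun i _ hi => by
        have := hAdm.2 i hi
        have h2 : (0 : ℝ) ≤ (s : ℝ) * (κ i : ℝ) := by exact_mod_cast this
        simpa [hy] using h2)
    -- `δ` is maximal
    have hδmx : δ ∈ T.mx := by
      rw [Fan.mxT, mem_filter, Fan.mem_faces] at hδ
      obtain ⟨⟨F, hF, hFs⟩, hc1, -⟩ := hδ
      have : δ = F := Finset.eq_of_subset_of_card_le hFs (by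
        rw [T.mx_card F hF, hc1]; simp)
      rw [this]; exact hF
    have hδind := T.mx_indep δ hδmx
    have hδcard := T.mx_card δ hδmx
    obtain ⟨v, hvA, hv⟩ := hAd δ hδmx
    set K : ℝ := ∑ b ∈ ε, |crd δ y b| + ∑ v' ∈ A, |y ⬝ᵥ toR (v' - u₀)| + 1 with hK
    have hK1 : ∀ b ∈ ε, |crd δ y b| < K := by
      intro b hb
      have h1 : |crd δ y b| ≤ ∑ b ∈ ε, |crd δ y b| :=
        Finset.single_le_sum (f := fun b => |crd δ y b|) (fun _ _ => abs_nonneg _) hb
      have h2 : 0 ≤ ∑ v' ∈ A, |y ⬝ᵥ toR (v' - u₀)| := Finset.sum_nonneg fun _ _ => abs_nonneg _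
      rw [hK]; linarith
    have hK2 : ∀ v' ∈ A, |y ⬝ᵥ toR (v' - u₀)| ≤ K := by
      intro v' hv'
      have h1 : |y ⬝ᵥ toR (v' - u₀)| ≤ ∑ v' ∈ A, |y ⬝ᵥ toR (v' - u₀)| :=
        Finset.single_le_sum (f := fun v' => |y ⬝ᵥ toR (v' - u₀)|) (fun _ _ => abs_nonneg _) hv'
      have h2 : 0 ≤ ∑ b ∈ ε, |crd δ y b| := Finset.sum_nonneg fun _ _ => abs_nonneg _
      rw [hK]; linarith
    have hKpos : 0 < K := by
      have h1 : 0 ≤ ∑ v' ∈ A, |y ⬝ᵥ toR (v' - u₀)| := Finset.sum_nonneg fun _ _ => abs_nonneg _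
      have h2 : 0 ≤ ∑ b ∈ ε, |crd δ y b| := Finset.sum_nonneg fun _ _ => abs_nonneg _
      rw [hK]; linarith
    -- the coefficients
    set xc : (Fin n → ℤ) → ℝ := fun b => crd δ y b + if b ∈ ε then K else 0 with hxc
    set x : Fin n → ℝ := ∑ b ∈ δ, xc b • toR b with hx
    have hxy : x = y + K • ∑ b ∈ ε, toR b := by
      rw [hx]
      simp only [hxc, add_smul, Finset.sum_add_distrib]
      rw [sum_crd hδind hδcard, Finset.smul_sum]
      congr 1
      rw [← Finset.sum_subset hεδ]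
      · exact sum_congr rfl fun b hb => by rw [if_pos hb]
      · intro b _ hb; rw [if_neg hb, zero_smul]
    have hxc0 : ∀ b, 0 ≤ xc b := by
      intro b
      by_cases hb : b ∈ ε
      · have := neg_abs_le (crd δ y b)
        have h2 := hK1 b hb
        simp only [hxc, if_pos hb]; linarith
      · simp only [hxc, if_neg hb, add_zero]; exact hδpos b hb
    have hxcε : ∀ b ∈ ε, 0 < xc b := by
      intro b hb
      have := neg_abs_le (crd δ y b)
      have h2 := hK1 b hb
      simp only [hxc, if_pos hb]; linarith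
    have hxdot : ∀ z : Fin n → ℤ, x ⬝ᵥ toR z = ∑ b ∈ δ, xc b * ((b ⬝ᵥ z : ℤ) : ℝ) := by
      intro z
      rw [hx, dot_sum]
      exact sum_congr rfl fun b _ => by rw [dot_cast]
    have hxdot2 : ∀ z : Fin n → ℤ, x ⬝ᵥ toR z =
        (s : ℝ) * ((κ ⬝ᵥ z : ℤ) : ℝ) + K * ∑ b ∈ ε, ((b ⬝ᵥ z : ℤ) : ℝ) := by
      intro z
      rw [hxy, add_dotProduct, hy, smul_dotProduct, smul_dotProduct, sum_dotProduct, dot_cast]
      simp only [smul_eq_mul]
      congr 2
      exact sum_congr rfl fun b _ => by rw [dot_cast]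
    -- `x` is minimal at `u₀`
    have hmin : ∀ v' ∈ A, x ⬝ᵥ toR u₀ ≤ x ⬝ᵥ toR v' := by
      intro v' hv'
      have h0 : x ⬝ᵥ toR v' - x ⬝ᵥ toR u₀ = x ⬝ᵥ toR (v' - u₀) := by
        rw [toR_sub, dotProduct_sub]
      rw [← sub_nonneg, h0]
      by_cases hph : ∀ b ∈ ε, b ⬝ᵥ v' = NA A b
      · rw [hxdot2]
        have h1 : ∑ b ∈ ε, ((b ⬝ᵥ (v' - u₀) : ℤ) : ℝ) = 0 := by
          refine Finset.sum_eq_zero fun b hb => ?_
          rw [dotProduct_sub, hph b hb, hεu0 b hb]; simp
        rw [h1, mul_zero, add_zero]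
        have := hAdm.1 v' hv' hph
        exact_mod_cast this
      · push Not at hph
        obtain ⟨b, hb, hbv⟩ := hph
        have hge : ∀ b ∈ ε, 0 ≤ b ⬝ᵥ (v' - u₀) := by
          intro b hb
          rw [dotProduct_sub, hεu0 b hb]
          have := NA_le hv' b
          omega
        have hb1 : 1 ≤ b ⬝ᵥ (v' - u₀) := by
          rw [dotProduct_sub, hεu0 b hb]
          have := NA_le hv' b
          omega
        have h1 : (1 : ℝ) ≤ ∑ b ∈ ε, ((b ⬝ᵥ (v' - u₀) : ℤ) : ℝ) := by
          have h2 : ((b ⬝ᵥ (v' - u₀) : ℤ) : ℝ) ≤ ∑ b ∈ ε, ((b ⬝ᵥ (v' - u₀) : ℤ) : ℝ) :=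
            Finset.single_le_sum (f := fun b => ((b ⬝ᵥ (v' - u₀) : ℤ) : ℝ))
              (fun b hb => by exact_mod_cast hge b hb) hb
          have h3 : (1 : ℝ) ≤ ((b ⬝ᵥ (v' - u₀) : ℤ) : ℝ) := by exact_mod_cast hb1
          linarith
        rw [hxdot2]
        have h2 := hK2 v' hv'
        rw [hy, smul_dotProduct, dot_cast, smul_eq_mul] at h2
        have h3 := neg_abs_le ((s : ℝ) * ((κ ⬝ᵥ (v' - u₀) : ℤ) : ℝ))
        nlinarith
    -- the positive part of `δ`
    set δ' := δ.filter (fun b => 0 < xc b) with hδ'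
    have hεδ' : ε ⊆ δ' := fun b hb => mem_filter.2 ⟨hεδ hb, hxcε b hb⟩
    have hflat : ∀ u ∈ τ \ Z, x ⬝ᵥ toR u = x ⬝ᵥ toR u₀ := by
      intro u hu
      have h0 : x ⬝ᵥ toR u - x ⬝ᵥ toR u₀ = x ⬝ᵥ toR (u - u₀) := by
        rw [toR_sub, dotProduct_sub]
      rw [← sub_eq_zero, h0, hxdot2, hκ (u - u₀) (Or.inl ⟨u, hu, u₀, hu₀, rfl⟩)]
      rw [Finset.sum_eq_zero]
      · simp
      · intro b hb
        rw [dotProduct_sub, (hdual b hb).1 u hu, hεu0 b hb]; simp
    have hδ'1 : ∀ b ∈ δ', ∀ u ∈ τ \ Z, b ⬝ᵥ u = NA A b := by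
      intro b hb u hu
      rw [hδ', mem_filter] at hb
      have h1 : x ⬝ᵥ toR u ≤ x ⬝ᵥ toR v := by rw [hflat u hu]; exact hmin v hvA
      rw [hxdot, hxdot] at h1
      have h2 : ∑ b ∈ δ, xc b * (((b ⬝ᵥ u - NA A b : ℤ)) : ℝ) ≤ 0 := by
        have : ∑ b ∈ δ, xc b * (((b ⬝ᵥ u - NA A b : ℤ)) : ℝ) =
            ∑ b ∈ δ, xc b * ((b ⬝ᵥ u : ℤ) : ℝ) - ∑ b ∈ δ, xc b * ((b ⬝ᵥ v : ℤ) : ℝ) := by
          rw [← Finset.sum_sub_distrib]
          refine sum_congr rfl fun b hb => ?_
          rw [hv b hb]; push_cast; ring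
        rw [this]; linarith
      have h3 : ∀ b ∈ δ, 0 ≤ xc b * (((b ⬝ᵥ u - NA A b : ℤ)) : ℝ) := by
        intro b hb
        refine mul_nonneg (hxc0 b) ?_
        have := NA_le (hτA u hu) b
        exact_mod_cast (by omega : (0 : ℤ) ≤ b ⬝ᵥ u - NA A b)
      have h4 := (Finset.sum_eq_zero_iff_of_nonneg h3).1 (le_antisymm h2 (Finset.sum_nonneg h3))
        b hb.1
      rcases mul_eq_zero.1 h4 with h5 | h5
      · exact absurd h5 hb.2.ne'
      · have : b ⬝ᵥ u - NA A b = 0 := by exact_mod_cast h5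
        omega
    have hδ'2 : ∀ b ∈ δ', ∀ u ∈ τ ∩ Z, b ⬝ᵥ u = 0 := by
      intro b hb u hu
      rw [hδ', mem_filter] at hb
      rw [mem_inter] at hu
      obtain ⟨k, rfl⟩ := hN.2.1 u hu.2
      have h1 : x ⬝ᵥ toR (Pi.single k 1 : Fin n → ℤ) = 0 := by
        rw [hxdot2, hκ _ (Or.inr ⟨hu.1, hu.2⟩), Finset.sum_eq_zero]
        · simp
        · intro b hb
          rw [(hdual b hb).2 _ (mem_inter.2 hu)]; simp
      rw [hxdot] at h1
      have h3 : ∀ b ∈ δ, 0 ≤ xc b * (((b ⬝ᵥ (Pi.single k 1 : Fin n → ℤ) : ℤ)) : ℝ) := by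
        intro b hb
        refine mul_nonneg (hxc0 b) ?_
        rw [dotProduct_single_one]
        exact_mod_cast T.vert_nonneg b (T.mx_sub δ hδmx hb) k
      have h4 := (Finset.sum_eq_zero_iff_of_nonneg h3).1 h1 b hb.1
      rcases mul_eq_zero.1 h4 with h5 | h5
      · exact absurd h5 hb.2.ne'
      · exact_mod_cast h5
    -- `|δ'| ≤ |ε| + 1`
    have hδ'card : δ'.card ≤ ε.card + 1 := by
      have hind1 : Indep δ' := hδind.subset (filter_subset _ _)
      set g : {u // u ∈ τ.erase u₀} → Fin n → ℝ := fun u => toR (rel Z u₀ u) with hg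
      have hu0τ : u₀ ∈ τ := (mem_sdiff.1 hu₀).1
      have hu0Z : u₀ ∉ Z := (mem_sdiff.1 hu₀).2
      have hgi : LinearIndependent ℝ g := by
        rw [Fintype.linearIndependent_iff]
        intro c hc
        set d : (Fin n → ℤ) → ℝ := fun u => if h : u ∈ τ.erase u₀ then c ⟨u, h⟩ else 0 with hd
        have e1 : ∑ i, c i • g i = ∑ u ∈ τ.erase u₀, d u • toR (rel Z u₀ u) := by
          rw [← Finset.sum_coe_sort (τ.erase u₀)]
          refine sum_congr rfl fun u _ => ?_
          simp only [hd, hg, dif_pos u.2]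
        rw [e1] at hc
        set t : ℝ := ∑ u ∈ τ.erase u₀, if u ∈ Z then 0 else d u with ht
        have e2 : ∑ u ∈ τ.erase u₀, d u • toR (rel Z u₀ u) =
            ∑ u ∈ τ.erase u₀, d u • toR u - t • toR u₀ := by
          rw [ht, Finset.sum_smul, ← Finset.sum_sub_distrib]
          refine sum_congr rfl fun u _ => ?_
          unfold rel
          split_ifs with h
          · simp
          · rw [toR_sub, smul_sub]
        rw [e2] at hc
        have hτind : Indep τ := hτ.indep
        have h6 := hτind.sum_eq_zero (c := fun u => if u = u₀ then -t else d u) (by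
          rw [← Finset.insert_erase hu0τ, sum_insert (notMem_erase _ _)]
          simp only [if_true]
          rw [sum_congr rfl (g := fun u => d u • toR u) (fun u hu => by
            rw [if_neg (ne_of_mem_erase hu)])]
          rw [neg_smul, neg_add_eq_sub, ← hc])
        intro i
        have h7 := h6 i.1 (mem_of_mem_erase i.2)
        rw [if_neg (ne_of_mem_erase i.2)] at h7
        rw [hd] at h7
        change (if h : (i : Fin n → ℤ) ∈ τ.erase u₀ then c ⟨i, h⟩ else 0) = 0 at h7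
        rwa [dif_pos i.2] at h7
      have h8 := orth_card (n := n) (fun b : δ' => toR (b : Fin n → ℤ)) g hind1 hgi (by
        intro b u
        show toR (b : Fin n → ℤ) ⬝ᵥ toR (rel Z u₀ u) = 0
        rw [dot_cast]
        have hb := b.2
        have huτ : (u : Fin n → ℤ) ∈ τ := mem_of_mem_erase u.2
        unfold rel
        split_ifs with h
        · rw [hδ'2 b hb u (mem_inter.2 ⟨huτ, h⟩)]; simp
        · rw [dotProduct_sub, hδ'1 b hb u (mem_sdiff.2 ⟨huτ, h⟩), hδ'1 b hb u₀ hu₀]; simp)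
      rw [Fintype.card_coe, Fintype.card_coe, card_erase_of_mem hu0τ] at h8
      have : 0 < τ.card := card_pos.2 ⟨u₀, hu0τ⟩
      omega
    -- the extra vector
    have hex : ∃ a ∈ δ', a ∉ ε := by
      by_contra hno
      push Not at hno
      apply hκs
      have h1 : y ∈ Submodule.span ℝ (toR '' (ε : Set (Fin n → ℤ))) := by
        rw [span_iff]
        refine ⟨crd δ y, ?_⟩
        conv_lhs => rw [← sum_crd hδind hδcard y]
        symm
        refine Finset.sum_subset hεδ fun b hb hbε => ?_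
        have h2 : ¬ 0 < xc b := fun h => hbε (hno b (mem_filter.2 ⟨hb, h⟩))
        have h3 : xc b = crd δ y b := by simp only [hxc, if_neg hbε, add_zero]
        have h4 : crd δ y b = 0 := le_antisymm (by rw [← h3]; exact not_lt.1 h2) (hδpos b hbε)
        rw [h4, zero_smul]
      have h2 := Submodule.smul_mem _ ((s : ℝ)⁻¹) h1
      rwa [hy, smul_smul, inv_mul_cancel₀ hs0, one_smul] at h2
    obtain ⟨a, haδ', haε⟩ := hex
    have hδ'eq : δ' = insert a ε := by
      symm
      refine Finset.eq_of_subset_of_card_le (insert_subset haδ' hεδ') ?_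
      rw [card_insert_of_notMem haε]; exact hδ'card
    have haδ : a ∈ δ := (mem_filter.1 haδ').1
    have haS : a ∈ S := by
      rw [hSmem]
      refine ⟨T.mx_sub δ hδmx haδ, haε, ⟨δ, hδmx, ?_⟩, ?_⟩
      · rw [← hδ'eq]; exact filter_subset _ _
      · intro b hb
        rw [← hδ'eq] at hb
        exact ⟨hδ'1 b hb, hδ'2 b hb⟩
    refine ⟨a, haS, ?_⟩
    -- the sign
    set g : ℝ := crd δ y a with hg
    have hgpos : 0 < g := by
      have h1 := (mem_filter.1 haδ').2
      have h3 : xc a = crd δ y a := by simp only [hxc, if_neg haε, add_zero]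
      rw [hg, ← h3]; exact h1
    have hyexp : y = g • toR a + ∑ b ∈ ε, crd δ y b • toR b := by
      conv_lhs => rw [← sum_crd hδind hδcard y]
      have h1 : ∑ b ∈ insert a ε, crd δ y b • toR b = ∑ b ∈ δ, crd δ y b • toR b := by
        refine Finset.sum_subset (by rw [← hδ'eq]; exact filter_subset _ _) fun b hb hbn => ?_
        rw [mem_insert, not_or] at hbn
        have h2 : ¬ 0 < xc b := fun h => by
          have : b ∈ insert a ε := by rw [← hδ'eq]; exact mem_filter.2 ⟨hb, h⟩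
          rw [mem_insert] at this
          exact this.elim hbn.1 hbn.2
        have h3 : xc b = crd δ y b := by simp only [hxc, if_neg hbn.2, add_zero]
        have h4 : crd δ y b = 0 := le_antisymm (by rw [← h3]; exact not_lt.1 h2) (hδpos b hbn.2)
        rw [h4, zero_smul]
      rw [← h1, sum_insert haε]
    obtain ⟨c, hc⟩ := hSdec a haS
    have hsg : (s : ℝ) = g * (m a : ℝ) := by
      by_contra hne
      apply hκs
      have hne' : (s : ℝ) - g * (m a : ℝ) ≠ 0 := sub_ne_zero.2 hne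
      have h1 : ((s : ℝ) - g * (m a : ℝ)) • toR κ ∈
          Submodule.span ℝ (toR '' (ε : Set (Fin n → ℤ))) := by
        rw [span_iff]
        refine ⟨fun b => g * c b + crd δ y b, ?_⟩
        have e1 : (s : ℝ) • toR κ = g • ((m a : ℝ) • toR κ + ∑ b ∈ ε, c b • toR b) +
            ∑ b ∈ ε, crd δ y b • toR b := by rw [← hc, ← hyexp]
        rw [sub_smul, e1]
        simp only [add_smul, Finset.sum_add_distrib, mul_smul, ← Finset.smul_sum, smul_add]
        abel
      have h2 := Submodule.smul_mem _ (((s : ℝ) - g * (m a : ℝ))⁻¹) h1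
      rwa [smul_smul, inv_mul_cancel₀ hne', one_smul] at h2
    rcases hs with rfl | rfl
    · refine Int.sign_eq_one_of_pos ?_
      have h1 : (0 : ℝ) < m a := by
        by_contra h
        push Not at h
        have : g * (m a : ℝ) ≤ 0 := mul_nonpos_of_nonneg_of_nonpos hgpos.le h
        rw [← hsg] at this
        norm_num at this
      exact_mod_cast h1
    · refine Int.sign_eq_neg_one_of_neg ?_
      have h1 : (m a : ℝ) < 0 := by
        by_contra h
        push Not at h
        have : 0 ≤ g * (m a : ℝ) := mul_nonneg hgpos.le h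
        rw [← hsg] at this
        norm_num at this
      exact_mod_cast h1
  -- conclusion
  have hcount : ∀ s : ℤ, (s = 1 ∨ s = -1) →
      ∑ a ∈ S, (if (m a).sign = s then (1 : ℤ) else 0) = if Adm A u₀ κ ε s then 1 else 0 := by
    intro s hs
    split_ifs with h
    · obtain ⟨a, ha, hsa⟩ := hL3 s hs h
      rw [Finset.sum_eq_single a]
      · rw [if_pos hsa]
      · intro b hb hba
        rw [if_neg]
        intro hsb
        exact hba (hL4 b hb a ha (hsb.trans hsa.symm))
      · intro h; exact absurd ha h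
    · refine Finset.sum_eq_zero fun a ha => ?_
      rw [if_neg]
      intro hsa
      apply h
      rw [← hsa]
      exact hL2 a ha
  rw [← hcount 1 (Or.inl rfl), ← hcount (-1) (Or.inr rfl), ← Finset.sum_sub_distrib]
  refine sum_congr rfl fun a ha => ?_
  rcases hsgn a ha with h | h <;> rw [h] <;> norm_num

end Mono
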